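import Pool.Agent.H38.WT.Targets

/-!
# Families of cuts: the pairs inside the largest good cut, after the move
-/

set_option autoImplicit false

namespace Pool.Agent.H19.WT

open Pool.Agent.H38.WT

theorem pf_INB (h1 : T_GMN) (h2 : T_GUN) : T_INB := by
  intro m ℓ F j K hm hF hK
  obtain ⟨hKF, hjK, hgood, -⟩ := hK
  have hℓ : 0 < ℓ := by omega
  have key : ∀ G' ∈ F, ∀ G ∈ F, G' ⊆ G → ∀ z, z ∈ G' → z ∈ K → ∀ y, y ∉ G' → y ∈ K → ∀ k,
      Good ℓ F k G → G' ⊆ K := by
    intro G' hG' G hG hsub z hz hzK y hy hyK k hk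
    rcases hF.cross G' hG' K hKF with h | h | h | h
    · exact h
    · exact absurd (h hyK) hy
    · exact absurd hzK (Set.disjoint_left.mp h hz)
    · exfalso
      apply h2 m ℓ F k j G K (by omega) hk hgood
      apply Set.eq_univ_of_univ_subset
      rw [← h]
      exact Set.union_subset_union_left _ hsub
  constructor
  · rintro ⟨ha, hb⟩ G' hG' hsub
    refine ⟨fun x hx y hy hxy hyj => ?_, fun hj y hy hyj => ?_⟩
    · by_contra hyG
      exact ha G' hG' K hKF hsub x hx y hy hyG (hsub hx) hy hxy hyj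
        (h1 m ℓ F y j K K hℓ hKF subset_rfl hyj.le hgood)
    · by_contra hyG
      exact hb G' hG' K hKF hsub y hy hyG hj hy hyj hgood
  · intro h
    refine ⟨?_, ?_⟩
    · intro G' hG' G hG hsub x hx y hy hyG hxK hyK hxy hyj hg
      have h3 := key G' hG' G hG hsub x hx hxK y hyG hyK y hg
      exact hyG ((h G' hG' h3).1 x hx y hyK hxy hyj)
    · intro G' hG' G hG hsub y hy hyG hj hyK hyj hg
      have h3 := key G' hG' G hG hsub j hj hjK y hyG hyK j hg
      exact hyG ((h G' hG' h3).2 hj y hyK hyj)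

end Pool.Agent.H19.WT
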