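import Pool.Agent.H38.WT.Targets

/-!
# Families of cuts: the largest good cut is the same after the move
-/

set_option autoImplicit false

namespace Pool.Agent.H19.WT

open Pool.Agent.H38.WT

/-- A permutation which fixes the points outside a set maps this set to itself. -/
theorem image_fix {m : ℕ} {C K : Set (Fin m)} {σ : Equiv.Perm (Fin m)} (hC : C ⊆ K)
    (h : ∀ x, x ∉ C → σ x = x) : σ '' K = K := by
  have h1 : ∀ x ∈ K, σ x ∈ K := by
    intro x hx
    by_cases hxC : σ x ∈ C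
    · exact hC hxC
    · have h2 := h _ hxC
      have h3 : σ x = x := σ.injective h2
      rw [h3]
      exact hx
  apply Set.Subset.antisymm
  · rintro _ ⟨x, hx, rfl⟩
    exact h1 x hx
  · intro y hy
    by_cases hyC : σ.symm y ∈ C
    · exact ⟨σ.symm y, hC hyC, by simp⟩
    · have h2 := h _ hyC
      rw [Equiv.apply_symm_apply] at h2
      exact ⟨σ.symm y, by rw [← h2]; exact hy, by simp⟩

/-- The inverse fixes the same points. -/
theorem symm_fix {m : ℕ} {C : Set (Fin m)} {σ : Equiv.Perm (Fin m)}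
    (h : ∀ x, x ∉ C → σ x = x) : ∀ x, x ∉ C → σ.symm x = x := by
  intro x hx
  rw [Equiv.symm_apply_eq]
  exact (h x hx).symm

theorem pf_TPI (h : T_GI) (h2 : T_CFI) (h3 : T_GUN) : T_TPI := by
  intro m ℓ F j K σ hm hF hK hσ
  obtain ⟨hKF, hjK, hgood, htop⟩ := hK
  have hKK : σ '' K = K := image_fix Set.inter_subset_left hσ
  have hKi : K ∈ img σ F := ⟨K, hKF, hKK.symm⟩
  have hg1 : Good ℓ (img σ F) j K := by
    have := h m ℓ F j j K K σ hm hF hKF hgood hσ hKF hgood
    rwa [hKK] at this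
  obtain ⟨hF1, hF2⟩ := h2 m F σ hF
  refine ⟨hKi, hjK, hg1, ?_⟩
  rintro G' hG' hjG' hgG'
  have h5 := h m ℓ (img σ F) j j K G' σ.symm hm hF1 hKi hg1 (symm_fix hσ) hG' hgG'
  rw [hF2] at h5
  obtain ⟨G, hG, rfl⟩ := hG'
  have h6 : σ.symm '' (σ '' G) = G := by
    rw [← Set.image_comp]
    simp
  rw [h6] at h5
  have hfin : G ⊆ K → σ '' G ⊆ K := by
    intro hs
    rw [← hKK]
    exact Set.image_mono hs
  rcases hF.cross G hG K hKF with hc | hc | hc | hc
  · exact hfin hc
  · exact hfin (htop G hG (hc hjK) h5)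
  · exfalso
    obtain ⟨x, hx, hxj⟩ := hjG'
    have h7 : σ x = x := hσ x (fun hx2 => Set.disjoint_left.mp hc hx hx2.1)
    rw [h7] at hxj
    subst hxj
    exact Set.disjoint_left.mp hc hx hjK
  · exact absurd hc (h3 m ℓ F j j G K (by omega) h5 hgood)

end Pool.Agent.H19.WT
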